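import Pool.Agent.Helper91.GU.StH

/-!
# Project GU (MP_b1e6de_al), module H4
-/

set_option autoImplicit false

namespace Pool.Agent.Helper68.GU

universe u

open Pool.Agent.Helper91.GU

theorem hH4 (hB7 : StB7.{u}) : StH4.{u} := by
  intro R _ _ r a c hUm
  obtain ⟨-, hrow⟩ := hB7 R R (RingHom.id R)
  have h := hrow r a a c c
  obtain ⟨y, hy⟩ := hUm
  have hsum : a * y (Sum.inl ()) + ∑ j, c j * y (Sum.inr j) = 1 := by
    have h1 := hy
    rw [dotProduct, Fintype.sum_sum_type] at h1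
    simpa [row] using h1
  rcases IsLocalRing.isUnit_or_isUnit_of_add_one hsum with h1 | h1
  · have ha : IsUnit a := isUnit_of_mul_isUnit_left h1
    exact h.2.2.2.2 ha
  · refine h.2.2.2.1 ?_
    unfold idl
    have h2 : (∑ j, c j * y (Sum.inr j)) ∈ Ideal.span (Set.range c) :=
      Ideal.sum_mem _ fun j _ => Ideal.mul_mem_right _ _ (Ideal.subset_span ⟨j, rfl⟩)
    have h3 := Ideal.eq_top_of_isUnit_mem _ h2 h1
    exact (Ideal.eq_top_iff_one _).1 h3

end Pool.Agent.Helper68.GU
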